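import Pool.Agent.Run7.h820.UM.Stm

/-! NER of project UM (helper820): closeness of the composition. -/

set_option autoImplicit false
open Complex Filter Topology Set Metric MeasureTheory

namespace Run7.h83.UM

open Run7.h820.UM
open Q90.SM (IsSig marshall pmean circ FF)
open Pool.Agent.W677.Mar (hat hat_ne hat_zero)

theorem unif {F : ℂ → ℂ} (hF : DifferentiableOn ℂ F (ball 0 1)) {ρ : ℝ} (hρ : ρ < 1) {ε : ℝ} (hε : 0 < ε) :
    ∃ δ > 0, ∀ x y : ℂ, ‖x‖ ≤ ρ → ‖y‖ ≤ ρ → ‖x - y‖ < δ → ‖F x - F y‖ < ε := by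
  have hc : ContinuousOn F (closedBall 0 ρ) := hF.continuousOn.mono (closedBall_subset_ball hρ)
  have hu := (isCompact_closedBall (0:ℂ) ρ).uniformContinuousOn_of_continuous hc
  rw [Metric.uniformContinuousOn_iff] at hu
  obtain ⟨δ, hδ, h⟩ := hu ε hε
  refine ⟨δ, hδ, fun x y hx hy hxy => ?_⟩
  have := h x (mem_closedBall_zero_iff.2 hx) y (mem_closedBall_zero_iff.2 hy) (by rwa [dist_eq_norm])
  rwa [dist_eq_norm] at this

theorem small0 {F : ℂ → ℂ} (hF : DifferentiableOn ℂ F (ball 0 1)) (h0 : F 0 = 0) {ρ : ℝ} (hρ0 : 0 ≤ ρ)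
    (hρ : ρ < 1) {ε : ℝ} (hε : 0 < ε) :
    ∀ᶠ N : ℕ in atTop, ∀ v : ℂ, ‖v‖ ≤ ρ → ‖F (v ^ N)‖ < ε := by
  have hc : ContinuousAt F 0 := (hF.differentiableAt (ball_mem_nhds 0 one_pos)).continuousAt
  rw [Metric.continuousAt_iff] at hc
  obtain ⟨δ, hδ, h⟩ := hc ε hε
  have h1 : Tendsto (fun N : ℕ => ρ ^ N) atTop (𝓝 0) := tendsto_pow_atTop_nhds_zero_of_lt_one hρ0 hρ
  filter_upwards [h1.eventually_lt_const hδ] with N hN v hv
  have h2 : dist (v ^ N) 0 < δ := by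
    rw [dist_zero_right, norm_pow]
    exact (pow_le_pow_left₀ (norm_nonneg _) hv N).trans_lt hN
  have h3 := h h2
  rwa [h0, dist_zero_right] at h3

theorem t_NER : S_NER := by
  intro ψ h φ g A B η hS hT hη
  have SY := (Q90.SM.ext_all ψ h hS).1
  have SG := (Q90.SM.ext_all φ g hT.sig).1
  set Y := hat (fun z => ψ z / z) 1 with hY
  set H := hat h 0 with hH
  set G := hat g 0 with hG
  have dY : DifferentiableOn ℂ Y (ball 0 1) := SY.G.1
  have dH : DifferentiableOn ℂ H (ball 0 1) := SY.dH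
  have dG : DifferentiableOn ℂ G (ball 0 1) := SG.dH
  have G0 : G 0 = 0 := SG.H0
  have hB : 0 ≤ B := (norm_nonneg _).trans (hT.bA 0 (mem_ball_self one_pos))
  set ρ : ℝ := 1 / (1 + η) with hρdef
  have hρ0 : 0 < ρ := by positivity
  have hρ1 : ρ < 1 := by
    rw [hρdef, div_lt_one (by positivity)]; linarith
  obtain ⟨δ₁, hδ₁, u1⟩ := unif dH hρ1 (show 0 < η / 3 by positivity)
  obtain ⟨δ₂, hδ₂, u2⟩ := unif dY hρ1 (show 0 < η / 2 by positivity)
  obtain ⟨M, hM⟩ : ∃ M : ℝ, ∀ v ∈ closedBall (0:ℂ) ρ, ‖Y v‖ ≤ M :=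
    (isCompact_closedBall (0:ℂ) ρ).exists_bound_of_continuousOn (dY.continuousOn.mono (closedBall_subset_ball hρ1))
  have hM0 : 0 ≤ M := (norm_nonneg _).trans (hM 0 (mem_closedBall_self hρ0.le))
  set δ : ℝ := min δ₁ δ₂ with hδdef
  have hδ : 0 < δ := lt_min hδ₁ hδ₂
  refine ⟨δ / 2, by positivity, ?_⟩
  have hBN : Tendsto (fun N : ℕ => B / (N:ℝ)) atTop (𝓝 0) := tendsto_const_div_atTop_nhds_zero_nat B
  have e1 : ∀ᶠ N : ℕ in atTop, Real.exp (B / N) < 1 + δ / 2 := by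
    have : Tendsto (fun N : ℕ => Real.exp (B / (N:ℝ))) atTop (𝓝 (Real.exp 0)) :=
      (Real.continuous_exp.tendsto 0).comp hBN
    rw [Real.exp_zero] at this
    exact this.eventually_lt_const (by linarith)
  have e2 : ∀ᶠ N : ℕ in atTop, B / (N:ℝ) < 1 := hBN.eventually_lt_const one_pos
  have e3 : ∀ᶠ N : ℕ in atTop, B / (N:ℝ) < δ / 4 := hBN.eventually_lt_const (by positivity)
  have e4 : ∀ᶠ N : ℕ in atTop, B / (N:ℝ) < η / (4 * (M + 1)) := hBN.eventually_lt_const (by positivity)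
  have e5 := small0 dG G0 hρ0.le hρ1 (show 0 < η / 3 by positivity)
  have e6 := small0 hT.dA hT.A0 hρ0.le hρ1 (show 0 < η / 3 by positivity)
  obtain ⟨N₀, hN₀⟩ := Filter.eventually_atTop.1
    (((((e1.and e2).and e3).and e4).and (e5.and e6)).and (eventually_ge_atTop 1))
  refine ⟨N₀, fun N hN => ?_⟩
  obtain ⟨⟨⟨⟨⟨a1, a2⟩, a3⟩, a4⟩, a5, a6⟩, a7⟩ := hN₀ N hN
  refine ⟨a1, fun z hz => ?_⟩
  have hz1 : 1 < ‖z‖ := by linarith
  have hz0 : z ≠ 0 := by
    intro h0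
    rw [h0, norm_zero] at hz1
    linarith
  have hNr : (1:ℝ) ≤ N := by exact_mod_cast a7
  have hNc : (N:ℂ) ≠ 0 := by
    have : N ≠ 0 := by omega
    exact_mod_cast this
  have hNn : ‖(N:ℂ)‖ = N := by simp
  set v : ℂ := z⁻¹ with hv
  have hvρ : ‖v‖ ≤ ρ := by
    rw [hv, norm_inv, hρdef, one_div]
    exact inv_anti₀ (by positivity) hz
  have hv0 : v ≠ 0 := inv_ne_zero hz0
  have hvN : v ^ N ∈ ball (0:ℂ) 1 := by
    rw [mem_ball_zero_iff, norm_pow]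
    exact pow_lt_one₀ (norm_nonneg _) (hvρ.trans_lt hρ1) (by omega)
  set x : ℂ := A (v ^ N) / N with hx
  have hxB : ‖x‖ ≤ B / N := by
    rw [hx, norm_div, hNn]
    exact div_le_div_of_nonneg_right (hT.bA _ hvN) (by positivity)
  have hx1 : ‖x‖ ≤ 1 := hxB.trans a2.le
  set m : ℂ := Complex.exp x / (1 + ((δ / 2 : ℝ) : ℂ)) with hm
  have hr : ‖(1 + ((δ / 2 : ℝ) : ℂ))‖ = 1 + δ / 2 := by
    have : (1 + ((δ / 2 : ℝ) : ℂ)) = ((1 + δ / 2 : ℝ) : ℂ) := by push_cast; ring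
    rw [this, Complex.norm_real, Real.norm_of_nonneg (by positivity)]
  have hr0 : (1 + ((δ / 2 : ℝ) : ℂ)) ≠ 0 := by
    intro h0
    rw [h0, norm_zero] at hr
    linarith
  have hm1 : ‖m‖ ≤ 1 := by
    rw [hm, norm_div, hr, div_le_one (by positivity), Complex.norm_exp]
    exact (Real.exp_le_exp.2 ((Complex.re_le_norm x).trans hxB)).trans a1.le
  have hmm : ‖m - 1‖ < δ := by
    have e : m - 1 = (Complex.exp x - 1 - ((δ / 2 : ℝ) : ℂ)) / (1 + ((δ / 2 : ℝ) : ℂ)) := by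
      rw [hm]; field_simp; ring
    rw [e, norm_div, hr]
    have b1 : ‖Complex.exp x - 1‖ ≤ 2 * ‖x‖ := Complex.norm_exp_sub_one_le hx1
    have b2 : ‖Complex.exp x - 1 - ((δ / 2 : ℝ) : ℂ)‖ < δ := by
      refine (norm_sub_le _ _).trans_lt ?_
      rw [Complex.norm_real, Real.norm_of_nonneg (by positivity)]
      linarith
    refine lt_of_le_of_lt (div_le_self (norm_nonneg _) (by linarith)) b2
  have hm0 : m ≠ 0 := div_ne_zero (Complex.exp_ne_zero _) hr0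
  have hvm : ‖v * m‖ ≤ ρ := by
    rw [norm_mul]
    calc ‖v‖ * ‖m‖ ≤ ρ * 1 := mul_le_mul hvρ hm1 (norm_nonneg _) hρ0.le
      _ = ρ := mul_one _
  have hvmd : ‖v * m - v‖ < δ := by
    have : v * m - v = v * (m - 1) := by ring
    rw [this, norm_mul]
    calc ‖v‖ * ‖m - 1‖ ≤ 1 * ‖m - 1‖ :=
          mul_le_mul_of_nonneg_right (hvρ.trans hρ1.le) (norm_nonneg _)
      _ < δ := by rw [one_mul]; exact hmm
  have hW : WW A (δ / 2) N z = (v * m)⁻¹ := by
    unfold WW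
    rw [← hv, ← hx, hm, Complex.exp_neg, hv]
    field_simp
  have hW0 : (v * m)⁻¹ ≠ 0 := inv_ne_zero (mul_ne_zero hv0 hm0)
  have hHW : h (WW A (δ / 2) N z) = H (v * m) := by
    rw [hW, hH, hat_ne _ _ (mul_ne_zero hv0 hm0)]
  have hHz : h z = H v := by
    rw [hH, hat_ne _ _ hv0, hv, inv_inv]
  have hGz : g (z ^ N) = G (v ^ N) := by
    rw [hG, hat_ne _ _ (pow_ne_zero _ hv0), hv, inv_pow, inv_inv]
  have hYz : ψ z = z * Y v := by
    rw [hY, hat_ne _ _ hv0, hv, inv_inv]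
    field_simp
  have hYW : ψ (WW A (δ / 2) N z) = (v * m)⁻¹ * Y (v * m) := by
    rw [hW, hY, hat_ne _ _ (mul_ne_zero hv0 hm0)]
    field_simp
  constructor
  · rw [hHW, hHz, hGz]
    have c1 : ‖H (v * m) - H v‖ < η / 3 := u1 _ _ hvm hvρ (hvmd.trans_le (min_le_left _ _))
    have c2 : ‖G (v ^ N)‖ < η / 3 := a5 v hvρ
    have c3 : ‖A (v ^ N)‖ < η / 3 := a6 v hvρ
    have c4 : ‖((N:ℂ) - 1) / N‖ ≤ 1 := by
      have : ((N:ℂ) - 1) / N = (((N:ℝ) - 1) / N : ℝ) := by push_cast; ring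
      rw [this, Complex.norm_real, Real.norm_of_nonneg (div_nonneg (by linarith) (by linarith)),
        div_le_one (by linarith)]
      linarith
    have c5 : ‖((N:ℂ) - 1) / N * A (v ^ N)‖ ≤ η / 3 := by
      rw [norm_mul]
      calc _ ≤ 1 * ‖A (v ^ N)‖ := mul_le_mul_of_nonneg_right c4 (norm_nonneg _)
        _ ≤ η / 3 := by rw [one_mul]; exact c3.le
    have e : H (v * m) + G (v ^ N) + ((N:ℂ) - 1) / N * A (v ^ N) - H v =
        (H (v * m) - H v) + G (v ^ N) + ((N:ℂ) - 1) / N * A (v ^ N) := by ring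
    rw [e]
    refine (norm_add₃_le).trans ?_
    linarith
  · rw [hYW, hYz]
    have c1 : ‖Y (v * m) - Y v‖ < η / 2 := u2 _ _ hvm hvρ (hvmd.trans_le (min_le_right _ _))
    have c2 : ‖Y (v * m)‖ ≤ M := hM _ (mem_closedBall_zero_iff.2 hvm)
    have c3 : ‖Complex.exp (-x) - 1‖ ≤ 2 * (B / N) := by
      have := Complex.norm_exp_sub_one_le (x := -x) (by rw [norm_neg]; exact hx1)
      rw [norm_neg] at this
      linarith
    have e : (v * m)⁻¹ * Y (v * m) / (1 + ((δ / 2 : ℝ) : ℂ)) - z * Y v =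
        z * ((Complex.exp (-x) - 1) * Y (v * m) + (Y (v * m) - Y v)) := by
      rw [Complex.exp_neg]
      have e1 : (v * m)⁻¹ / (1 + ((δ / 2 : ℝ) : ℂ)) = z * (Complex.exp x)⁻¹ := by
        rw [hm, hv]
        field_simp
      calc _ = (v * m)⁻¹ / (1 + ((δ / 2 : ℝ) : ℂ)) * Y (v * m) - z * Y v := by ring
        _ = _ := by rw [e1]; ring
    rw [e, norm_mul, mul_comm]
    refine mul_le_mul_of_nonneg_right ?_ (norm_nonneg _)
    refine (norm_add_le _ _).trans ?_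
    rw [norm_mul]
    have c4 : ‖Complex.exp (-x) - 1‖ * ‖Y (v * m)‖ ≤ η / 2 := by
      have d1 : ‖Complex.exp (-x) - 1‖ * ‖Y (v * m)‖ ≤ 2 * (B / N) * (M + 1) :=
        mul_le_mul c3 (by linarith) (norm_nonneg _) (by positivity)
      have d2 : B / N * (4 * (M + 1)) < η := by
        have := (lt_div_iff₀ (show 0 < 4 * (M + 1) by positivity)).1 a4
        exact this
      nlinarith
    linarith

end Run7.h83.UM
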