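import Pool.Agent.Run7.h820.UM.Stm

/-! PMN of project UM (helper820): means of `g (z^N)`. -/

set_option autoImplicit false
open Complex Filter Topology Set Metric MeasureTheory

namespace Run7.h83.UM

open Run7.h820.UM
open Q90.SM (IsSig marshall pmean circ FF)

theorem circ_norm {R : ℝ} (hR : 0 ≤ R) (θ : ℝ) : ‖circ R θ‖ = R := by
  unfold circ
  rw [norm_mul, Complex.norm_real, Real.norm_of_nonneg hR, Complex.norm_exp_ofReal_mul_I, mul_one]

theorem circ_cont (R : ℝ) : Continuous (circ R) := by
  unfold circ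
  fun_prop

theorem circ_per (R : ℝ) : Function.Periodic (circ R) (2 * Real.pi) := by
  intro θ
  unfold circ
  have : ((θ + 2 * Real.pi : ℝ) : ℂ) * Complex.I = (θ:ℂ) * Complex.I + 2 * Real.pi * Complex.I := by
    push_cast; ring
  rw [this, Complex.exp_add, Complex.exp_two_pi_mul_I, mul_one]

theorem circ_pow (R : ℝ) (N : ℕ) (θ : ℝ) : circ R θ ^ N = circ (R ^ N) (N * θ) := by
  unfold circ
  rw [mul_pow, ← Complex.exp_nat_mul]
  push_cast
  ring_nf

theorem mean_cont {h : ℂ → ℂ} (hh : DifferentiableOn ℂ h {z : ℂ | 1 < ‖z‖}) (t : ℂ) {R : ℝ} (hR : 1 < R) :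
    Continuous (fun θ : ℝ => ‖Complex.exp (t * h (circ R θ))‖) := by
  have h1 : Continuous (fun θ : ℝ => h (circ R θ)) := by
    rw [continuous_iff_continuousAt]
    intro θ
    have hm : circ R θ ∈ {z : ℂ | 1 < ‖z‖} := by
      show 1 < ‖circ R θ‖
      rw [circ_norm (by linarith)]
      exact hR
    have h2 : ContinuousAt h (circ R θ) :=
      (hh.differentiableAt ((isOpen_lt continuous_const continuous_norm).mem_nhds hm)).continuousAt
    exact ContinuousAt.comp (f := circ R) h2 (circ_cont R).continuousAt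
  exact (Complex.continuous_exp.comp (continuous_const.mul h1)).norm

theorem t_PMN : S_PMN := by
  intro ψ h φ g R C N hS hG hR hN hC t
  have hRN : 1 < R ^ N := one_lt_pow₀ hR (by omega)
  have hcg := mean_cont hG.2.2.2.1 t hRN
  have hch := mean_cont hS.2.2.2.1 t hR
  set F : ℝ → ℝ := fun θ => ‖Complex.exp (t * g (circ (R ^ N) θ))‖ with hF
  have hper : Function.Periodic F (2 * Real.pi) := by
    intro θ
    simp only [hF]
    rw [circ_per (R ^ N) θ]
  have hNr : (N:ℝ) ≠ 0 := by
    have : N ≠ 0 := by omega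
    exact_mod_cast this
  have key : ∫ θ in (0:ℝ)..(2 * Real.pi), F (N * θ) = ∫ θ in (0:ℝ)..(2 * Real.pi), F θ := by
    rw [intervalIntegral.integral_comp_mul_left (fun x => F x) hNr, mul_zero]
    have h1 := hper.intervalIntegral_add_zsmul_eq (N:ℤ) 0 (fun a b => hcg.intervalIntegrable a b)
    rw [zero_add, zero_add] at h1
    have h2 : ((N:ℤ) • (2 * Real.pi) : ℝ) = (N:ℝ) * (2 * Real.pi) := by simp
    rw [h2] at h1
    rw [h1]
    simp only [zsmul_eq_mul, smul_eq_mul, Int.cast_natCast]
    field_simp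
  have hle : ∀ θ : ℝ, Real.exp (-(‖t‖ * C)) * F (N * θ) ≤ ‖Complex.exp (t * h (circ R θ))‖ := by
    intro θ
    simp only [hF]
    rw [← circ_pow, Complex.norm_exp, Complex.norm_exp, ← Real.exp_add]
    apply Real.exp_le_exp.2
    have h1 := hC (circ R θ) (circ_norm (by linarith) θ)
    have h2 : (t * g (circ R θ ^ N)).re - (t * h (circ R θ)).re ≤ ‖t‖ * C := by
      rw [← Complex.sub_re]
      refine (Complex.re_le_norm _).trans ?_
      rw [← mul_sub, norm_mul, norm_sub_rev]
      exact mul_le_mul_of_nonneg_left h1 (norm_nonneg _)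
    linarith
  unfold pmean
  rw [mul_left_comm]
  refine mul_le_mul_of_nonneg_left ?_ (by positivity)
  rw [← key, ← intervalIntegral.integral_const_mul]
  apply intervalIntegral.integral_mono_on (by positivity)
  · exact ((hcg.comp (continuous_const.mul continuous_id)).const_mul _).intervalIntegrable _ _
  · exact hch.intervalIntegrable _ _
  · intro θ _
    exact hle θ

end Run7.h83.UM
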